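import Pool.Agent.H89.MC.Targets

/-!
Multicolour Poisson matchings (MP_5da387_pr): asymptotics.
-/

namespace Pool.Agent.H2.MC

open Pool.Agent.H96.MC
open Classical MeasureTheory ProbabilityTheory

theorem asy : T_ASY := by
  intro a ε c C d hd hε hC
  have h1 : Filter.Tendsto (fun r : ℝ => r ^ d) Filter.atTop Filter.atTop :=
    Filter.tendsto_pow_atTop (by omega)
  have h2 : Filter.Tendsto (fun r : ℝ => (a - ε / 2) * (1 - c / r) ^ d - (a - ε)) Filter.atTop
      (nhds ((a - ε / 2) * (1 - 0) ^ d - (a - ε))) := by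
    refine Filter.Tendsto.sub ?_ tendsto_const_nhds
    refine Filter.Tendsto.mul tendsto_const_nhds ?_
    refine Filter.Tendsto.pow ?_ d
    refine Filter.Tendsto.sub tendsto_const_nhds ?_
    exact Filter.Tendsto.div_atTop tendsto_const_nhds Filter.tendsto_id
  have h3 : 0 < (a - ε / 2) * (1 - 0) ^ d - (a - ε) := by
    simp only [sub_zero, one_pow, mul_one]
    linarith
  have h4 := Filter.Tendsto.atTop_mul_pos h3 h1 h2
  filter_upwards [h4.eventually_ge_atTop (Real.log C), Filter.eventually_gt_atTop 0] with r hr hr0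
  have h5 : (r - c) ^ d = r ^ d * (1 - c / r) ^ d := by
    rw [← mul_pow]
    congr 1
    field_simp
  have h6 : C = Real.exp (Real.log C) := (Real.exp_log hC).symm
  rw [h6, ← Real.exp_add]
  apply Real.exp_le_exp.2
  rw [h5]
  nlinarith [hr]

end Pool.Agent.H2.MC
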