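import Pool.Agent.H96.MC.Targets2
import Pool.Agent.H96.MC.Targets

/-!
Multicolour Poisson matchings (MP_5da387_pr): block counts of the Poisson configuration.
-/

namespace Pool.Agent.H2.MC

open Pool.Agent.H96.MC
open Classical MeasureTheory ProbabilityTheory

/-- coloured cells of the coloured blocks of `s` -/
noncomputable def WW {d q : ℕ} (l : ℕ) (s : Finset (CC d q)) : Finset (CC d q) :=
  s.biUnion (fun x => (cellsOf l x.1).image (fun z => (z, x.2)))

lemma mem_WW {d q l : ℕ} (hl : 1 ≤ l) {s : Finset (CC d q)} {y : CC d q} :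
    y ∈ WW l s ↔ (bl l y.1, y.2) ∈ s := by
  simp only [WW, Finset.mem_biUnion, Finset.mem_image]
  constructor
  · rintro ⟨x, hx, z, hz, rfl⟩
    rw [mem_cellsOf hl] at hz
    simp only
    rw [hz]
    exact hx
  · intro h
    exact ⟨_, h, y.1, mem_cellsOf_bl hl y.1, rfl⟩

lemma measurable_bc {d q : ℕ} (l : ℕ) : Measurable (bc l : Cfg d q → Cfg d q) := by
  rw [measurable_pi_iff]
  intro x
  unfold bc
  exact Finset.measurable_fun_sum _ (fun z _ => measurable_pi_apply _)

theorem blk (h : T_PSUM) : T_BLK := by
  intro d q D l hl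
  unfold poisL
  apply Measure.eq_infinitePi
  intro s t ht
  rw [Measure.map_apply (measurable_bc l) (MeasurableSet.pi s.countable_toSet (fun i _ => ht i))]
  -- the finite window
  set W := WW l s with hW
  have hmem : ∀ y : CC d q, y ∈ W ↔ (bl l y.1, y.2) ∈ s := fun y => mem_WW hl
  let f : W → s := fun y => ⟨(bl l y.1.1, y.1.2), (hmem y.1).1 y.2⟩
  let G : (W → ℕ) → (s → ℕ) := fun w k' => ∑ k, if f k = k' then w k else 0
  let S : Set (W → ℕ) := G ⁻¹' (Set.univ.pi (fun x : s => t x))
  have hG : Measurable G := by
    rw [measurable_pi_iff]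
    intro x
    refine Finset.measurable_fun_sum _ (fun z _ => ?_)
    by_cases hz : f z = x
    · simp only [hz, if_true]
      exact measurable_pi_apply _
    · simp only [hz, if_false]
      exact measurable_const
  have hpi : MeasurableSet (Set.univ.pi (fun x : s => t x)) :=
    MeasurableSet.univ_pi (fun x => ht x)
  have hS : MeasurableSet S := hG hpi
  have hsum : ∀ (n : Cfg d q) (x : s), G (W.restrict n) x = bc l n x := by
    intro n x
    simp only [G, bc, Finset.restrict]
    rw [← Finset.sum_filter]
    refine Finset.sum_bij' (i := fun y _ => y.1.1)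
      (j := fun z hz => (⟨(z, x.1.2), (hmem _).2 (by
        rw [mem_cellsOf hl] at hz
        simp only
        rw [hz]; exact x.2)⟩ : W)) ?_ ?_ ?_ ?_ ?_
    · intro y hy
      rw [Finset.mem_filter] at hy
      rw [mem_cellsOf hl]
      have := congrArg (fun u : s => u.1.1) hy.2
      exact this
    · intro z hz
      rw [Finset.mem_filter]
      refine ⟨Finset.mem_univ _, ?_⟩
      rw [mem_cellsOf hl] at hz
      apply Subtype.ext
      exact Prod.ext hz rfl
    · intro y hy
      rw [Finset.mem_filter] at hy
      apply Subtype.ext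
      have := congrArg (fun u : s => u.1.2) hy.2
      exact Prod.ext rfl this.symm
    · intro z hz
      rfl
    · intro y hy
      rw [Finset.mem_filter] at hy
      have := congrArg (fun u : s => u.1.2) hy.2
      simp only [f] at this
      rw [← this]
  have hpre : (bc l : Cfg d q → Cfg d q) ⁻¹' (Set.pi s t) = cylinder W S := by
    ext n
    simp only [Set.mem_preimage, Set.mem_pi, Finset.mem_coe, mem_cylinder, S, Set.mem_univ,
      true_implies, Subtype.forall]
    refine forall_congr' fun x => forall_congr' fun hx => ?_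
    rw [hsum n ⟨x, hx⟩]
  rw [hpre]
  let lamN : CC d q → NNReal := fun x => Real.toNNReal (D.lam x.2)
  have hlamN : ∀ x, (lamN x : ℝ) = D.lam x.2 := fun x => Real.coe_toNNReal _ (D.pos x.2).le
  have hp : pois D d = Measure.infinitePi (fun x : CC d q => poissonMeasure (lamN x)) := by
    unfold pois
    congr 1
    funext x
    congr 1
    apply NNReal.eq
    rw [hlamN]
    rfl
  rw [hp, Measure.infinitePi_cylinder _ hS]
  have h1 := h W s inferInstance inferInstance (fun k : W => lamN k.1) f
  have h2 : (Measure.pi (fun k : W => poissonMeasure (lamN k.1))) S =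
      ((Measure.pi (fun k : W => poissonMeasure (lamN k.1))).map G)
        (Set.univ.pi (fun x : s => t x)) := by
    rw [Measure.map_apply hG hpi]
  have h3 : (Measure.pi (fun k : W => poissonMeasure (lamN k.1))).map G =
    Measure.pi (fun k' => poissonMeasure (∑ k, if f k = k' then lamN k.1 else 0)) := by
    convert h1
  rw [h2, h3, Measure.pi_pi]
  rw [← Finset.prod_coe_sort s (fun x => (poissonMeasure (D.lam x.2 * (l : ℝ) ^ d).toNNReal) (t x))]
  refine Finset.prod_congr rfl (fun x _ => ?_)
  have h5 : (Finset.univ.filter (fun k : W => f k = x)).card = l ^ d := by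
    rw [← card_cellsOf l x.1.1]
    refine Finset.card_bij' (i := fun y _ => y.1.1)
      (j := fun z hz => (⟨(z, x.1.2), (hmem _).2 (by
        rw [mem_cellsOf hl] at hz
        simp only
        rw [hz]; exact x.2)⟩ : W)) ?_ ?_ ?_ ?_
    · intro y hy
      rw [Finset.mem_filter] at hy
      rw [mem_cellsOf hl]
      have := congrArg (fun u : s => u.1.1) hy.2
      exact this
    · intro z hz
      rw [Finset.mem_filter]
      refine ⟨Finset.mem_univ _, ?_⟩
      rw [mem_cellsOf hl] at hz
      apply Subtype.ext
      exact Prod.ext hz rfl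
    · intro y hy
      rw [Finset.mem_filter] at hy
      apply Subtype.ext
      have := congrArg (fun u : s => u.1.2) hy.2
      exact Prod.ext rfl this.symm
    · intro z hz
      rfl
  have h4 : ∀ k ∈ Finset.univ.filter (fun k : W => f k = x), lamN k.1 = lamN x.1 := by
    intro k hk
    rw [Finset.mem_filter] at hk
    have := congrArg (fun u : s => u.1.2) hk.2
    simp only [f] at this
    simp only [lamN, this]
  have h6 : (∑ k, if f k = x then lamN k.1 else 0) = (D.lam x.1.2 * (l : ℝ) ^ d).toNNReal := by
    rw [← Finset.sum_filter, Finset.sum_congr rfl h4, Finset.sum_const, h5]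
    apply NNReal.eq
    rw [Real.coe_toNNReal _ (mul_nonneg (D.pos _).le (by positivity))]
    simp only [nsmul_eq_mul, NNReal.coe_mul, hlamN]
    push_cast
    ring
  rw [h6]

end Pool.Agent.H2.MC
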