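import Pool.Agent.H89.MC.Targets
import Pool.Agent.H2.MC.PoisMean

/-!
Multicolour Poisson matchings (MP_5da387_pr): expected number of points of the unit cube.
-/

namespace Pool.Agent.H2.MC

open Pool.Agent.H96.MC
open Classical MeasureTheory ProbabilityTheory

/-- the unit cube -/
def QQ (d : ℕ) : Set (Sp d) := {y | ∀ l, 0 ≤ y l ∧ y l < 1}

lemma QQ_eq (d : ℕ) : QQ d = WithLp.ofLp ⁻¹' (Set.pi Set.univ (fun _ : Fin d => Set.Ico (0 : ℝ) 1)) := by
  ext y
  simp [QQ, Set.mem_pi]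

lemma measurable_QQ (d : ℕ) : MeasurableSet (QQ d) := by
  rw [QQ_eq]
  exact (PiLp.volume_preserving_ofLp (Fin d)).measurable
    (MeasurableSet.univ_pi (fun _ => measurableSet_Ico))

lemma volume_QQ (d : ℕ) : volume (QQ d) = 1 := by
  rw [QQ_eq, (PiLp.volume_preserving_ofLp (Fin d)).measure_preimage
    (MeasurableSet.univ_pi (fun _ => measurableSet_Ico)).nullMeasurableSet]
  rw [volume_pi_pi]
  simp

lemma bounded_QQ (d : ℕ) : Bornology.IsBounded (QQ d) := by
  rw [isBounded_iff_forall_norm_le]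
  refine ⟨Real.sqrt d, fun y hy => ?_⟩
  rw [EuclideanSpace.norm_eq]
  apply Real.sqrt_le_sqrt
  calc ∑ i, ‖y i‖ ^ 2 ≤ ∑ _i : Fin d, (1 : ℝ) := by
        apply Finset.sum_le_sum
        intro i _
        have h := hy i
        rw [Real.norm_eq_abs, sq_abs]
        nlinarith [h.1, h.2]
    _ = d := by simp

/-- mean of the number of points of one colour in a bounded set -/
lemma lintegral_encard {d q : ℕ} {V : Finset (Fin q → ℕ)} {lam : Fin q → ℝ} (S : Scheme V lam d)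
    (i : Fin q) (B : Set (Sp d)) (hB : MeasurableSet B) (hb : Bornology.IsBounded B) :
    ∫⁻ ω, ((S.Pi i ω ∩ B).encard : ENNReal) ∂S.P = ((lam i).toNNReal * (volume B).toNNReal : NNReal) := by
  have h := (S.poisson.2 1 (fun _ => i) (fun _ => B) (fun _ => hB) (fun _ => hb)
    (fun j j' hjj => absurd (Subsingleton.elim j j') hjj)).2 0
  have hm : Measurable (fun ω => (S.Pi i ω ∩ B).encard) := S.poisson.1 i B hB
  have h1 : ∫⁻ ω, ((S.Pi i ω ∩ B).encard : ENNReal) ∂S.P =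
      ∫⁻ x : ℕ∞, (x : ENNReal) ∂(S.P.map (fun ω => (S.Pi i ω ∩ B).encard)) :=
    (lintegral_map (Measurable.of_discrete (f := fun x : ℕ∞ => (x : ENNReal))) hm).symm
  rw [h1, h, lintegral_map (Measurable.of_discrete (f := fun x : ℕ∞ => (x : ENNReal)))
    Measurable.of_discrete]
  simp only [ENat.toENNReal_coe]
  exact lintegral_poisson _

theorem epc (h : T_DIST) : T_EPC := by
  intro d q D S hd
  have h1 : ∀ᵐ ω ∂S.P, (({x : Sp d | (∀ i, 0 ≤ x i ∧ x i < 1) ∧ (∃ i, x ∈ S.Pi i ω) ∧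
      ∃ G ∈ S.M ω, x ∈ G ∧ (-1 : ℝ) < fdiam G}.encard : ℕ∞) : ENNReal) =
      ∑ i, (((S.Pi i ω ∩ QQ d).encard : ℕ∞) : ENNReal) := by
    filter_upwards [h d q D S hd, S.part] with ω hdis hpart
    have h2 : {x : Sp d | (∀ i, 0 ≤ x i ∧ x i < 1) ∧ (∃ i, x ∈ S.Pi i ω) ∧
      ∃ G ∈ S.M ω, x ∈ G ∧ (-1 : ℝ) < fdiam G} = ⋃ i, (S.Pi i ω ∩ QQ d) := by
      ext x
      simp only [Set.mem_ofPred_eq, Set.mem_iUnion, Set.mem_inter_iff]
      constructor
      · rintro ⟨ha, ⟨i, hi⟩, -⟩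
        exact ⟨i, hi, ha⟩
      · rintro ⟨i, hi, ha⟩
        obtain ⟨G, ⟨hG, hxG⟩, -⟩ := hpart i x hi
        refine ⟨ha, ⟨i, hi⟩, G, hG, hxG, ?_⟩
        have : 0 ≤ fdiam G := Metric.diam_nonneg
        linarith
    rw [h2, Set.encard_iUnion_of_finite]
    · rw [finsum_eq_sum_of_fintype]
      exact map_sum ENat.toENNRealRingHom _ _
    · intro i j hij
      exact (hdis i j hij).mono Set.inter_subset_left Set.inter_subset_left
  unfold Scheme.tl
  have hm : ∀ i : Fin q, Measurable (fun ω => ((S.Pi i ω ∩ QQ d).encard : ENNReal)) := fun i =>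
    (Measurable.of_discrete (f := fun x : ℕ∞ => (x : ENNReal))).comp
      (S.poisson.1 i (QQ d) (measurable_QQ d))
  rw [lintegral_congr_ae h1, lintegral_finsetSum _ (fun i _ => hm i)]
  rw [ENNReal.ofReal_sum_of_nonneg (fun i _ => (D.pos i).le)]
  refine Finset.sum_congr rfl (fun i _ => ?_)
  rw [lintegral_encard S i (QQ d) (measurable_QQ d) (bounded_QQ d), volume_QQ]
  simp [ENNReal.ofReal]

end Pool.Agent.H2.MC
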