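import Pool.Agent.H89.MC.Targets

/-!
Multicolour Poisson matchings (MP_5da387_pr): the motion translates families and points.
-/

namespace Pool.Agent.H2.MC

open Pool.Agent.H96.MC
open Classical MeasureTheory ProbabilityTheory

variable {d q : ℕ}

lemma trP_trP (a b : Cell d) (x : Pt d q) : trP a (trP b x) = trP (b + a) x := by
  simp [trP, add_assoc]

lemma trP_zero (x : Pt d q) : trP 0 x = x := by
  simp [trP]

lemma trP_neg (b : Cell d) (x : Pt d q) : trP (-b) (trP b x) = x := by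
  rw [trP_trP, add_neg_cancel, trP_zero]

lemma trP_neg' (b : Cell d) (x : Pt d q) : trP b (trP (-b) x) = x := by
  rw [trP_trP, neg_add_cancel, trP_zero]

/-- the cell of the motion -/
noncomputable def bb (v : Fin d → ℝ) (ω : Big d q) : Cell d := fun l => ⌊ω.2.2 l + v l⌋

lemma mot_fam (v : Fin d → ℝ) (ω : Big d q) (x : Pt d q) :
    (mot v ω).1.2 (trP (bb v ω) x) = (ω.1.2 x).image (trP (bb v ω)) := by
  change (ω.1.2 (trP (-(bb v ω)) (trP (bb v ω) x))).image (trP (-(-(bb v ω)))) = _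
  rw [trP_neg, neg_neg]

lemma mot_num (v : Fin d → ℝ) (ω : Big d q) (x : Pt d q) :
    (mot v ω).1.1 (trP (bb v ω) x).1 = ω.1.1 x.1 := by
  change ω.1.1 ((trP (bb v ω) x).1.1 + -(bb v ω), (trP (bb v ω) x).1.2) = _
  simp [trP]

lemma pos_mot (v : Sp d) (ω : Big d q) (x : Pt d q) :
    pos (mot v ω) (trP (bb v ω) x) = pos ω x + v := by
  have h1 : (mot v ω).2.1 (trP (bb v ω) x) = ω.2.1 x := by
    change ω.2.1 (trP (-(bb v ω)) (trP (bb v ω) x)) = _
    rw [trP_neg]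
  ext l
  have h2 : (pos (mot v ω) (trP (bb v ω) x)) l =
      (((trP (bb v ω) x).1.1 l : ℤ) : ℝ) + (mot v ω).2.1 (trP (bb v ω) x) l + (mot v ω).2.2 l := rfl
  have h3 : (pos ω x + v) l = ((x.1.1 l : ℤ) : ℝ) + ω.2.1 x l + ω.2.2 l + v l := rfl
  rw [h2, h3, h1]
  have h4 : (mot v ω).2.2 l = Int.fract (ω.2.2 l + v l) := rfl
  have h5 : (((trP (bb v ω) x).1.1 l : ℤ) : ℝ) = x.1.1 l + (⌊ω.2.2 l + v l⌋ : ℤ) := by
    have : (trP (bb v ω) x).1.1 l = x.1.1 l + ⌊ω.2.2 l + v l⌋ := rfl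
    rw [this]
    push_cast
    ring
  rw [h4, h5]
  have h6 := Int.floor_add_fract (ω.2.2 l + v l)
  linarith

lemma famB_mot (v : Sp d) (ω : Big d q) (G : Finset (Pt d q)) :
    famB (mot v ω) (G.image (trP (bb v ω))) = trF v (famB ω G) := by
  unfold famB trF
  rw [Finset.image_image, Finset.map_eq_image, Finset.image_image]
  apply Finset.image_congr
  intro x _
  simp only [Function.comp]
  rw [pos_mot]
  rfl

theorem ivs (h : T_SHX) : T_IVS := by
  intro d q V v ω hd hG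
  obtain ⟨-, -, -, -, -, hSH⟩ := h d q
  have hGm : GoodB V (mot v ω) := by
    obtain ⟨h1, h2, h3, h4⟩ := hG
    refine ⟨?_, ?_, ?_, ?_⟩
    · intro x y hxy
      have := h1 _ _ hxy
      have h5 := congrArg (trP (bb v ω)) this
      change trP (bb v ω) (trP (-(bb v ω)) x) = trP (bb v ω) (trP (-(bb v ω)) y) at h5
      rwa [trP_neg', trP_neg'] at h5
    · intro x l
      exact h2 _ l
    · intro l
      exact ⟨Int.fract_nonneg _, Int.fract_lt_one _⟩
    · exact (hSH V _ ω.1).2 h4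
  refine ⟨hGm, ?_, ?_⟩
  · ext F
    constructor
    · rintro ⟨-, y, hy, rfl⟩
      obtain ⟨x, rfl⟩ : ∃ x, y = trP (bb v ω) x := ⟨trP (-(bb v ω)) y, (trP_neg' _ _).symm⟩
      rw [mot_fam] at hy ⊢
      rw [famB_mot]
      exact ⟨_, ⟨hG, x, Finset.image_nonempty.1 hy, rfl⟩, rfl⟩
    · rintro ⟨F', ⟨-, x, hx, rfl⟩, rfl⟩
      refine ⟨hGm, trP (bb v ω) x, ?_, ?_⟩
      · rw [mot_fam]
        exact Finset.image_nonempty.2 hx
      · rw [mot_fam, famB_mot]
  · intro i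
    ext z
    constructor
    · rintro ⟨-, y, hy, hc, rfl⟩
      obtain ⟨x, rfl⟩ : ∃ x, y = trP (bb v ω) x := ⟨trP (-(bb v ω)) y, (trP_neg' _ _).symm⟩
      rw [mot_num] at hy
      exact ⟨pos ω x, ⟨hG, x, hy, hc, rfl⟩, (pos_mot v ω x).symm⟩
    · rintro ⟨z', ⟨-, x, hx, hc, rfl⟩, rfl⟩
      refine ⟨hGm, trP (bb v ω) x, ?_, hc, (pos_mot v ω x).symm⟩
      rw [mot_num]
      exact hx

end Pool.Agent.H2.MC
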