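import Pool.Agent.H96.MC.Targets2

/-!
Multicolour Poisson matchings (MP_5da387_pr): clean radii exist (pigeonhole).
-/

namespace Pool.Agent.H2.MC

open Pool.Agent.H96.MC
open Classical MeasureTheory ProbabilityTheory

/-- maximal separated subsets of finite sets of cells -/
lemma exists_net {d : ℕ} (Z : Finset (Cell d)) (m : ℕ) :
    ∃ S : Finset (Cell d), S ⊆ Z ∧ (∀ x ∈ S, ∀ y ∈ S, x ≠ y → m ≤ sn (x - y)) ∧
      ∀ z ∈ Z, ∃ σ ∈ S, z = σ ∨ sn (z - σ) < m := by
  obtain ⟨S, hS, hmax⟩ := Finset.exists_max_image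
    (Z.powerset.filter (fun S => ∀ x ∈ S, ∀ y ∈ S, x ≠ y → m ≤ sn (x - y))) Finset.card
    ⟨∅, by simp⟩
  rw [Finset.mem_filter, Finset.mem_powerset] at hS
  refine ⟨S, hS.1, hS.2, ?_⟩
  intro z hz
  by_contra hcon
  push Not at hcon
  have hzS : z ∉ S := fun h => (hcon z h).1 rfl
  have h1 : insert z S ∈ Z.powerset.filter (fun S => ∀ x ∈ S, ∀ y ∈ S, x ≠ y → m ≤ sn (x - y)) := by
    rw [Finset.mem_filter, Finset.mem_powerset]
    refine ⟨Finset.insert_subset hz hS.1, ?_⟩
    intro x hx y hy hxy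
    rw [Finset.mem_insert] at hx hy
    rcases hx with rfl | hx
    · rcases hy with rfl | hy
      · exact absurd rfl hxy
      · exact (hcon y hy).2
    · rcases hy with rfl | hy
      · rw [sn_sub_comm]
        exact (hcon x hx).2
      · exact hS.2 x hx y hy hxy
  have h2 := hmax _ h1
  rw [Finset.card_insert_of_notMem hzS] at h2
  omega

lemma card_Icc_le (a m : ℕ) : (Finset.Icc (a - m) (a + m)).card ≤ 2 * m + 1 := by
  rw [Nat.card_Icc]
  omega

theorem pig : T_PIG := by
  intro d q D η c₁ E P hP n j z hj hF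
  obtain ⟨j', rfl⟩ : ∃ j', j = j' + 1 := ⟨j - 1, by omega⟩
  rw [FF_succ, not_not] at hF
  set j := j' + 1 with hjdef
  obtain ⟨hG1, -, hG3⟩ := hF
  have hl : 1 ≤ P.l j := hP.lpos j
  set c : Cell d := bl (P.l j) z with hc
  set H : ℕ := P.A j / (4 * P.l j) with hH
  have hHA : H * (4 * P.l j) ≤ P.A j := Nat.div_mul_le_self _ _
  have hKA := hP.KA j hj
  -- atypical blocks
  set Bad : Finset (Cell d) := (cube c (2 * P.A j)).filter
    (fun b => sn (b - c) * P.l j ≤ 2 * P.A j ∧ ¬ Typ D η (P.w j) (P.l j) n b) with hBad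
  have hBadmem : ∀ b, b ∈ Bad ↔ sn (b - c) * P.l j ≤ 2 * P.A j ∧ ¬ Typ D η (P.w j) (P.l j) n b := by
    intro b
    rw [hBad, Finset.mem_filter, mem_cube]
    constructor
    · exact fun h => h.2
    · intro h
      refine ⟨?_, h⟩
      calc sn (b - c) ≤ sn (b - c) * P.l j := Nat.le_mul_of_pos_right _ hl
        _ ≤ _ := h.1
  have hBadcard : Bad.card ≤ P.n0 j := by
    have h1 : {b : Cell d | sn (b - c) * P.l j ≤ 2 * P.A j ∧
        ¬ Typ D η (P.w j) (P.l j) n b} = (Bad : Set (Cell d)) := by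
      ext b
      simp only [Set.mem_ofPred_eq, Finset.mem_coe]
      exact (hBadmem b).symm
    rw [h1, Set.ncard_coe_finset] at hG1
    exact hG1
  -- nets of the lower levels
  choose S hSZ hSsep hSnet using fun k : ℕ =>
    exists_net ((cube z (2 * P.A j)).filter (fun x => FF D P η n k x)) (10 * P.A k)
  have hScard : ∀ k, P.k0 j ≤ k → k < j → (S k).card ≤ P.kap j k := by
    intro k h1 h2
    refine hG3 k h1 h2 (S k) ?_ (hSsep k)
    intro x hx
    have := hSZ k hx
    rw [Finset.mem_filter, mem_cube] at this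
    exact this
  set M : ℕ → ℕ := fun k => 10 * P.A k / P.l j + P.A (min (k + 1) (j - 1)) / P.l j + P.K j + 5 with hM
  -- excluded radii
  set X1 : Finset ℕ := Bad.biUnion
    (fun b => Finset.Icc (sn (b - c) - (P.K j + 1)) (sn (b - c) + (P.K j + 1))) with hX1
  set X2 : Finset ℕ := (Finset.Ico (P.k0 j) j).biUnion (fun k => (S k).biUnion
    (fun σ => Finset.Icc (sn (bl (P.l j) σ - c) - M k) (sn (bl (P.l j) σ - c) + M k))) with hX2
  have hX1card : X1.card ≤ P.n0 j * (2 * P.K j + 3) := by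
    calc X1.card ≤ Bad.card * (2 * P.K j + 3) := by
          apply Finset.card_biUnion_le_card_mul
          intro b _
          have := card_Icc_le (sn (b - c)) (P.K j + 1)
          omega
      _ ≤ _ := Nat.mul_le_mul_right _ hBadcard
  have hX2card : X2.card ≤ ∑ k ∈ Finset.Ico (P.k0 j) j, P.kap j k * (2 * M k + 1) := by
    refine le_trans Finset.card_biUnion_le ?_
    apply Finset.sum_le_sum
    intro k hk
    rw [Finset.mem_Ico] at hk
    calc _ ≤ (S k).card * (2 * M k + 1) := by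
          apply Finset.card_biUnion_le_card_mul
          intro σ _
          exact card_Icc_le _ _
      _ ≤ _ := Nat.mul_le_mul_right _ (hScard k hk.1 hk.2)
  have hpig := hP.pig j hj
  have hlt : (X1 ∪ X2).card < (Finset.Ico H (2 * H)).card := by
    rw [Nat.card_Ico]
    have h1 := Finset.card_union_le X1 X2
    have h2 : 2 * H - H = H := by omega
    rw [h2]
    calc (X1 ∪ X2).card ≤ X1.card + X2.card := h1
      _ ≤ P.n0 j * (2 * P.K j + 3) + ∑ k ∈ Finset.Ico (P.k0 j) j, P.kap j k * (2 * M k + 1) :=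
        Nat.add_le_add hX1card hX2card
      _ < H := hpig
  obtain ⟨h, hh1, hh2⟩ := Finset.exists_mem_notMem_of_card_lt_card hlt
  rw [Finset.mem_Ico] at hh1
  rw [Finset.mem_union, not_or] at hh2
  obtain ⟨hhX1, hhX2⟩ := hh2
  -- the general consequence of the nets
  have key : ∀ k, P.k0 j ≤ k → k < j → ∀ z', sn (z' - z) ≤ 2 * P.A j → FF D P η n k z' →
      ∀ t, t + 10 * P.A k / P.l j + 1 ≤ M k → 
      h + t < sn (bl (P.l j) z' - c) ∨ sn (bl (P.l j) z' - c) + t < h := by
    intro k hk1 hk2 z' hz' hFF t ht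
    by_contra hcon
    push Not at hcon
    apply hhX2
    obtain ⟨σ, hσ, hσz⟩ := hSnet k z' (by
      rw [Finset.mem_filter, mem_cube]
      exact ⟨hz', hFF⟩)
    rw [hX2, Finset.mem_biUnion]
    refine ⟨k, Finset.mem_Ico.2 ⟨hk1, hk2⟩, ?_⟩
    rw [Finset.mem_biUnion]
    refine ⟨σ, hσ, ?_⟩
    have hd : sn (bl (P.l j) z' - bl (P.l j) σ) ≤ 10 * P.A k / P.l j + 1 := by
      rcases hσz with rfl | h1
      · simp [sn_zero]
      · have h2 := sn_bl_mul_le hl z' σ
        rcases Nat.eq_zero_or_pos (sn (bl (P.l j) z' - bl (P.l j) σ)) with h0 | h0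
        · rw [h0]; exact Nat.zero_le _
        have h3 : (sn (bl (P.l j) z' - bl (P.l j) σ) - 1) * P.l j ≤ 10 * P.A k := by
          rw [Nat.sub_mul, one_mul]
          omega
        have h4 := (Nat.le_div_iff_mul_le (by omega : 0 < P.l j)).2 h3
        omega
    have e1 := sn_sub_le (bl (P.l j) z') (bl (P.l j) σ) c
    have e2 := sn_sub_le (bl (P.l j) σ) (bl (P.l j) z') c
    rw [sn_sub_comm (bl (P.l j) σ) (bl (P.l j) z')] at e2
    rw [Finset.mem_Icc]
    omega
  refine ⟨h, hh1.1, hh1.2, ?_, ?_, ?_⟩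
  · intro b hb1 hb2
    change sn (b - c) ≤ h + P.K j + 1 at hb1
    change h ≤ sn (b - c) + P.K j + 1 at hb2
    by_contra hT
    apply hhX1
    rw [hX1, Finset.mem_biUnion]
    refine ⟨b, (hBadmem b).2 ⟨?_, hT⟩, ?_⟩
    · have h1 : sn (b - c) ≤ 2 * H + P.K j := by omega
      calc sn (b - c) * P.l j ≤ (2 * H + P.K j) * P.l j := Nat.mul_le_mul_right _ h1
        _ ≤ 2 * P.A j := by nlinarith
    · rw [Finset.mem_Icc]
      omega
  · intro z' hz' hFF
    have h1 := key j' (by have := hP.k0 j hj; omega) (by omega) z' hz' hFF (P.K j + 1) (by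
      have h0 : 0 ≤ P.A (min (j' + 1) (j - 1)) / P.l j := Nat.zero_le _
      simp only [hM]
      generalize P.A (min (j' + 1) (j - 1)) / P.l j = Q1 at *
      generalize 10 * P.A j' / P.l j = Q2 at *
      omega)
    rcases h1 with h1 | h1
    · left; omega
    · right; omega
  · intro k hk1 hk2 z' hz' hFF
    have h1 := key k hk1 (by omega) z' hz' hFF (P.A (k + 1) / P.l j + 2) (by
      have : min (k + 1) (j - 1) = k + 1 := by omega
      simp only [hM, this]; omega)
    rcases h1 with h1 | h1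
    · left; omega
    · right; omega

end Pool.Agent.H2.MC
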