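import Pool.Agent.H96.MC.Targets2

/-!
Multicolour Poisson matchings (MP_5da387_pr): translations preserve the Poisson configuration.
-/

namespace Pool.Agent.H2.MC

open Pool.Agent.H96.MC
open Classical MeasureTheory ProbabilityTheory

lemma shift_inj {d q : ℕ} (c : Cell d) :
    Function.Injective (fun x : CC d q => ((x.1 + c, x.2) : CC d q)) := by
  intro x y hxy
  simp only [Prod.mk.injEq, add_left_inj] at hxy
  exact Prod.ext hxy.1 hxy.2

theorem shi : T_SHI := by
  intro d q D c
  refine ⟨?_, fun L => ?_⟩
  · exact Measure.map_infinitePi_infinitePi_of_inj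
      (P := fun x : CC d q => poissonMeasure ⟨D.lam x.2, (D.pos x.2).le⟩) (shift_inj c)
  · exact Measure.map_infinitePi_infinitePi_of_inj
      (P := fun x : CC d q => poissonMeasure (D.lam x.2 * L).toNNReal) (shift_inj c)

end Pool.Agent.H2.MC
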